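import Pool.Agent.EQC.Stmts

/-! Squad EQC, row MAT: a maximal matching of the graph induced on the high vertices. -/

open SimpleGraph Finset
open Pool.Agent.Helper51_Equitable (edges nbrs vertexSum nb IsEquitableProper Nice)

namespace Pool.Agent.EQC.H6

theorem mat : MatStmt := by
  intro V _ G D
  classical
  let P : Finset (Sym2 V) → Prop := fun M => (∀ e ∈ M, e ∈ edges G ∧ ∀ v ∈ e, Hi G D v) ∧
    ∀ e ∈ M, ∀ f ∈ M, ∀ v, v ∈ e → v ∈ f → e = f
  have hne : (Finset.univ.filter P).Nonempty :=
    ⟨∅, Finset.mem_filter.2 ⟨Finset.mem_univ _, by simp [P]⟩⟩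
  obtain ⟨M, hM, hmax⟩ := Finset.exists_max_image (Finset.univ.filter P) Finset.card hne
  obtain ⟨h1, h2⟩ : P M := (Finset.mem_filter.1 hM).2
  refine ⟨M, ⟨h1, h2, ?_⟩⟩
  intro u v hu hv huv
  by_contra hcon
  have hcon' : ∀ e ∈ M, u ∉ e ∧ v ∉ e := by
    intro e he
    constructor
    · intro h
      exact hcon ⟨e, he, Or.inl h⟩
    · intro h
      exact hcon ⟨e, he, Or.inr h⟩
  have hnot : s(u, v) ∉ M := fun h => (hcon' _ h).1 (by simp)
  have hP : P (insert s(u, v) M) := by
    constructor
    · intro e he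
      rcases Finset.mem_insert.1 he with rfl | he
      · refine ⟨by simpa [edges] using huv, ?_⟩
        intro w hw
        rcases Sym2.mem_iff.1 hw with rfl | rfl
        · exact hu
        · exact hv
      · exact h1 e he
    · intro e he f hf w hwe hwf
      rcases Finset.mem_insert.1 he with he1 | he1 <;>
        rcases Finset.mem_insert.1 hf with hf1 | hf1
      · rw [he1, hf1]
      · exfalso
        rw [he1] at hwe
        rcases Sym2.mem_iff.1 hwe with h | h
        · exact (hcon' _ hf1).1 (h ▸ hwf)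
        · exact (hcon' _ hf1).2 (h ▸ hwf)
      · exfalso
        rw [hf1] at hwf
        rcases Sym2.mem_iff.1 hwf with h | h
        · exact (hcon' _ he1).1 (h ▸ hwe)
        · exact (hcon' _ he1).2 (h ▸ hwe)
      · exact h2 e he1 f hf1 w hwe hwf
  have h3 := hmax _ (Finset.mem_filter.2 ⟨Finset.mem_univ _, hP⟩)
  rw [Finset.card_insert_of_notMem hnot] at h3
  omega

end Pool.Agent.EQC.H6
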